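import Pool.Agent.W528.Ord.Newton

/-! The multiplicity of one slope of a Newton polygon, from two vertices. -/

set_option autoImplicit false
set_option linter.all false

namespace Pool.Agent.Q17.Mot

open Polynomial

theorem prod_max_up (M : Multiset ℝ) (r₀ : ℝ) (h0 : 0 < r₀) : ∃ r₁ > r₀, ∀ r, r₀ < r → r < r₁ →
    (M.map fun x => max r x).prod * r₀ ^ Multiset.card (M.filter (· ≤ r₀)) =
      (M.map fun x => max r₀ x).prod * r ^ Multiset.card (M.filter (· ≤ r₀)) := by
  classical
  induction M using Multiset.induction_on with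
  | empty => exact ⟨r₀ + 1, by linarith, fun r _ _ => by simp⟩
  | cons a M ih =>
    obtain ⟨r₁, h1, h⟩ := ih
    by_cases ha : a ≤ r₀
    · refine ⟨r₁, h1, fun r hr hr' => ?_⟩
      have := h r hr hr'
      rw [Multiset.map_cons, Multiset.map_cons, Multiset.prod_cons, Multiset.prod_cons,
        Multiset.filter_cons_of_pos (p := fun x => x ≤ r₀) M ha, Multiset.card_cons, pow_succ, pow_succ,
        max_eq_left ha, max_eq_left (ha.trans hr.le)]
      linear_combination (r * r₀) * this
    · refine ⟨min r₁ a, lt_min h1 (not_le.1 ha), fun r hr hr' => ?_⟩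
      have := h r hr (lt_of_lt_of_le hr' (min_le_left _ _))
      have h2 : r ≤ a := (lt_of_lt_of_le hr' (min_le_right _ _)).le
      rw [Multiset.map_cons, Multiset.map_cons, Multiset.prod_cons, Multiset.prod_cons,
        Multiset.filter_cons_of_neg (p := fun x => x ≤ r₀) M ha, max_eq_right h2, max_eq_right (not_le.1 ha).le]
      linear_combination a * this

theorem prod_max_down (M : Multiset ℝ) (r₀ : ℝ) (h0 : 0 < r₀) : ∃ r₁ < r₀, 0 ≤ r₁ ∧ ∀ r, r₁ < r →
    r < r₀ → (M.map fun x => max r x).prod * r₀ ^ Multiset.card (M.filter (· < r₀)) =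
      (M.map fun x => max r₀ x).prod * r ^ Multiset.card (M.filter (· < r₀)) := by
  classical
  induction M using Multiset.induction_on with
  | empty => exact ⟨0, h0, le_rfl, fun r _ _ => by simp⟩
  | cons a M ih =>
    obtain ⟨r₁, h1, hr1, h⟩ := ih
    by_cases ha : a < r₀
    · refine ⟨max r₁ a, max_lt h1 ha, hr1.trans (le_max_left _ _), fun r hr hr' => ?_⟩
      have := h r (lt_of_le_of_lt (le_max_left _ _) hr) hr'
      have h2 : a ≤ r := (lt_of_le_of_lt (le_max_right _ _) hr).le
      rw [Multiset.map_cons, Multiset.map_cons, Multiset.prod_cons, Multiset.prod_cons,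
        Multiset.filter_cons_of_pos (p := fun x => x < r₀) M ha, Multiset.card_cons, pow_succ, pow_succ,
        max_eq_left ha.le, max_eq_left h2]
      linear_combination (r * r₀) * this
    · refine ⟨r₁, h1, hr1, fun r hr hr' => ?_⟩
      have := h r hr hr'
      have h2 : r₀ ≤ a := not_lt.1 ha
      rw [Multiset.map_cons, Multiset.map_cons, Multiset.prod_cons, Multiset.prod_cons,
        Multiset.filter_cons_of_neg (p := fun x => x < r₀) M ha, max_eq_right h2, max_eq_right (hr'.le.trans h2)]
      linear_combination a * this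

theorem prod_max_pos (M : Multiset ℝ) (r : ℝ) (h0 : 0 < r) : 0 < (M.map fun x => max r x).prod := by
  induction M using Multiset.induction_on with
  | empty => simp
  | cons a M ih =>
    rw [Multiset.map_cons, Multiset.prod_cons]
    exact mul_pos (lt_max_of_lt_left h0) ih

theorem count_eq_sub (M : Multiset ℝ) (r₀ : ℝ) :
    M.count r₀ + Multiset.card (M.filter (· < r₀)) = Multiset.card (M.filter (· ≤ r₀)) := by
  classical
  induction M using Multiset.induction_on with
  | empty => simp
  | cons a M ih =>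
    rcases lt_trichotomy a r₀ with h | h | h
    · rw [Multiset.count_cons_of_ne h.ne', Multiset.filter_cons_of_pos (p := fun x => x < r₀) M h,
        Multiset.filter_cons_of_pos (p := fun x => x ≤ r₀) M h.le, Multiset.card_cons,
        Multiset.card_cons, ← ih]
      ring
    · subst h
      rw [Multiset.count_cons_self, Multiset.filter_cons_of_neg (p := fun x => x < a) M (lt_irrefl a),
        Multiset.filter_cons_of_pos (p := fun x => x ≤ a) M (le_refl a), Multiset.card_cons, ← ih]
      ring
    · rw [Multiset.count_cons_of_ne h.ne,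
        Multiset.filter_cons_of_neg (p := fun x => x < r₀) M (not_lt.2 h.le),
        Multiset.filter_cons_of_neg (p := fun x => x ≤ r₀) M (not_le.2 h), ← ih]

/-- Growth of `∏ max r x` at `r₀` bounds the multiplicity of `r₀`. -/
theorem count_ge (M : Multiset ℝ) (r₀ : ℝ) (h0 : 0 < r₀) (i j : ℕ) (G : ℝ)
    (hG : (M.map fun x => max r₀ x).prod = G)
    (hi : ∀ r, r₀ < r → G * r ^ i ≤ (M.map fun x => max r x).prod * r₀ ^ i)
    (hj : ∀ r, 0 < r → r < r₀ → G * r ^ j ≤ (M.map fun x => max r x).prod * r₀ ^ j) :
    i ≤ M.count r₀ + j := by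
  have hGpos : 0 < G := hG ▸ prod_max_pos M r₀ h0
  have hcount := count_eq_sub M r₀
  have h1 : i ≤ Multiset.card (M.filter (· ≤ r₀)) := by
    obtain ⟨r₁, hr1, h⟩ := prod_max_up M r₀ h0
    obtain ⟨r, hr, hr'⟩ := exists_between hr1
    have h2 := h r hr hr'
    have h3 := hi r hr
    rw [hG] at h2
    set u := Multiset.card (M.filter (· ≤ r₀)) with hu
    set P := (M.map fun x => max r x).prod with hP
    by_contra hlt
    push Not at hlt
    have h4 : (1 : ℝ) < r / r₀ := (one_lt_div h0).2 hr
    have h5 : (r / r₀) ^ u < (r / r₀) ^ i := pow_lt_pow_right₀ h4 hlt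
    have e1 : P = G * (r / r₀) ^ u := by
      rw [div_pow]
      field_simp
      linarith
    rw [e1] at h3
    have h6 : G * r ^ i = G * (r / r₀) ^ i * r₀ ^ i := by
      rw [div_pow]
      field_simp
    rw [h6] at h3
    have h7 := le_of_mul_le_mul_right h3 (pow_pos h0 i)
    have h8 := le_of_mul_le_mul_left h7 hGpos
    linarith
  have h2 : Multiset.card (M.filter (· < r₀)) ≤ j := by
    obtain ⟨r₁, hr1, hr10, h⟩ := prod_max_down M r₀ h0
    obtain ⟨r, hr, hr'⟩ := exists_between hr1
    have hrpos : 0 < r := lt_of_le_of_lt hr10 hr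
    have h2 := h r hr hr'
    have h3 := hj r hrpos hr'
    rw [hG] at h2
    set u := Multiset.card (M.filter (· < r₀)) with hu
    set P := (M.map fun x => max r x).prod with hP
    by_contra hlt
    push Not at hlt
    have h4 : r / r₀ < 1 := (div_lt_one h0).2 hr'
    have h4' : 0 < r / r₀ := div_pos hrpos h0
    have h5 : (r / r₀) ^ u < (r / r₀) ^ j := pow_lt_pow_right_of_lt_one₀ h4' h4 hlt
    have e1 : P = G * (r / r₀) ^ u := by
      rw [div_pow]
      field_simp
      linarith
    rw [e1] at h3
    have h6 : G * r ^ j = G * (r / r₀) ^ j * r₀ ^ j := by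
      rw [div_pow]
      field_simp
    rw [h6] at h3
    have h7 := le_of_mul_le_mul_right h3 (pow_pos h0 j)
    have h8 := le_of_mul_le_mul_left h7 hGpos
    linarith
  omega

variable {L : Type*} [NormedField L] [IsUltrametricDist L]

/-- If the Newton polygon lies above the polygon `hp` with `n` sides, and if it meets it at the ends
`s ≤ t` of a segment of slope `a`, the slope `a` has multiplicity at least `t - s`. -/
theorem count_slope (f : L[X]) (n : ℕ) (hm : f.Monic) (hn : f.natDegree = n) (hs : f.Splits) (q : ℝ)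
    (hq0 : 0 < q) (hq1 : q < 1) (hp : ℕ → ℕ) (a s t : ℕ) (hst : s ≤ t) (htn : t ≤ n)
    (hle : ∀ k ≤ n, ‖f.coeff (n - k)‖ ≤ q ^ hp k)
    (hes : ‖f.coeff (n - s)‖ = q ^ hp s) (het : ‖f.coeff (n - t)‖ = q ^ hp t)
    (hseg : hp t = hp s + a * (t - s))
    (hconv : ∀ k ≤ n, hp s + a * k ≤ hp k + a * s) :
    t - s ≤ (f.roots.map fun y => ‖y‖).count (q ^ a) := by
  classical
  set v : AbsoluteValue L ℝ := NormedField.toAbsoluteValue L with hv
  have hvn : ∀ x : L, v x = ‖x‖ := fun x => rfl
  have hna : IsNonarchimedean v := fun x y => IsUltrametricDist.norm_add_le_max x y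
  have hprod : f = (f.roots.map fun y => X - C y).prod := by
    conv_lhs => rw [hs.eq_prod_roots, hm.leadingCoeff, C_1, one_mul]
  have hG : ∀ r : ℝ, 0 < r → ((f.roots.map fun y => ‖y‖).map fun x => max r x).prod =
      f.gaussNorm v r := by
    intro r hr
    have h1 := Pool.Agent.W518.DN.gn_linear (v := v) hna hr f.roots
    rw [← hprod] at h1
    rw [h1, Multiset.map_map]
    rfl
  have hqa : 0 < q ^ a := pow_pos hq0 a
  have key : f.gaussNorm v (q ^ a) = q ^ hp s * (q ^ a) ^ (n - s) := by
    apply Pool.Agent.W518.DN.gn_eq hqa.le _ (n - s)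
    · rw [hvn, hes]
    · intro i
      rw [hvn]
      by_cases hi : i ≤ n
      · have h3 := hle (n - i) (by omega)
        rw [show n - (n - i) = i by omega] at h3
        have h4 := hconv (n - i) (by omega)
        calc ‖f.coeff i‖ * (q ^ a) ^ i ≤ q ^ hp (n - i) * (q ^ a) ^ i :=
              mul_le_mul_of_nonneg_right h3 (by positivity)
          _ = q ^ (hp (n - i) + a * i) := by rw [← pow_mul, ← pow_add]
          _ ≤ q ^ (hp s + a * (n - s)) := by
              apply pow_le_pow_of_le_one hq0.le hq1.le
              have e1 : a * (n - s) + a * s = a * n := by rw [← mul_add]; congr 1; omega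
              have e2 : a * (n - i) + a * i = a * n := by rw [← mul_add]; congr 1; omega
              omega
          _ = q ^ hp s * (q ^ a) ^ (n - s) := by rw [← pow_mul, ← pow_add]
      · have : f.coeff i = 0 := coeff_eq_zero_of_natDegree_lt (by omega)
        rw [this, norm_zero, zero_mul]
        positivity
  have hlow : ∀ (r : ℝ), 0 < r → ∀ i, ‖f.coeff i‖ * r ^ i ≤ f.gaussNorm v r := by
    intro r hr i
    have := le_gaussNorm v f hr.le i
    exact this
  have h := count_ge (f.roots.map fun y => ‖y‖) (q ^ a) hqa (n - s) (n - t) _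
    ((hG _ hqa).trans key) ?_ ?_
  · omega
  · intro r hr
    have hr0 : 0 < r := hqa.trans hr
    rw [hG r hr0]
    have h1 := hlow r hr0 (n - s)
    rw [hes] at h1
    calc q ^ hp s * (q ^ a) ^ (n - s) * r ^ (n - s) = (q ^ hp s * r ^ (n - s)) * (q ^ a) ^ (n - s) := by ring
      _ ≤ _ := mul_le_mul_of_nonneg_right h1 (by positivity)
  · intro r hr0 hr
    rw [hG r hr0]
    have h1 := hlow r hr0 (n - t)
    rw [het] at h1
    have e : q ^ hp s * (q ^ a) ^ (n - s) = q ^ hp t * (q ^ a) ^ (n - t) := by
      rw [← pow_mul, ← pow_mul, ← pow_add, ← pow_add, hseg]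
      congr 1
      have e1 : a * (n - s) = a * (t - s) + a * (n - t) := by rw [← mul_add]; congr 1; omega
      omega
    rw [e]
    calc q ^ hp t * (q ^ a) ^ (n - t) * r ^ (n - t) = (q ^ hp t * r ^ (n - t)) * (q ^ a) ^ (n - t) := by ring
      _ ≤ _ := mul_le_mul_of_nonneg_right h1 (by positivity)

end Pool.Agent.Q17.Mot
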