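import Mathlib

/-! Sorted lists of slopes: the segment of one slope. -/

set_option autoImplicit false
set_option linter.all false

namespace Pool.Agent.Q17.Mot

theorem sum_le_mul (a : ℕ) (l : List ℕ) (h : ∀ x ∈ l, x ≤ a) : l.sum ≤ a * l.length := by
  induction l with
  | nil => simp
  | cons b l ih =>
    have h1 := ih (fun x hx => h x (List.mem_cons_of_mem _ hx))
    have h2 := h b List.mem_cons_self
    rw [List.sum_cons, List.length_cons, mul_add, mul_one]
    omega

theorem mul_le_sum (a : ℕ) (l : List ℕ) (h : ∀ x ∈ l, a ≤ x) : a * l.length ≤ l.sum := by
  induction l with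
  | nil => simp
  | cons b l ih =>
    have h1 := ih (fun x hx => h x (List.mem_cons_of_mem _ hx))
    have h2 := h b List.mem_cons_self
    rw [List.sum_cons, List.length_cons, mul_add, mul_one]
    omega

/-- a sorted list is the list of its smaller elements, its elements equal to `a`, its larger ones -/
theorem split_sorted (a : ℕ) (l : List ℕ) (hl : l.Pairwise (· ≤ ·)) :
    ∃ l₁ l₂ : List ℕ, l = l₁ ++ (List.replicate (l.count a) a ++ l₂) ∧ (∀ x ∈ l₁, x < a) ∧
      (∀ x ∈ l₂, a < x) ∧ l₁.length = l.countP (· < a) ∧
      l₁.length + l.count a = l.countP (· ≤ a) := by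
  induction l with
  | nil => exact ⟨[], [], by simp⟩
  | cons b l ih =>
    obtain ⟨h0, hl'⟩ := List.pairwise_cons.1 hl
    obtain ⟨l₁, l₂, h1, h2, h3, h4, h5⟩ := ih hl'
    rcases lt_trichotomy b a with h | h | h
    · refine ⟨b :: l₁, l₂, ?_, ?_, h3, ?_, ?_⟩
      · rw [List.count_cons_of_ne h.ne, List.cons_append, ← h1]
      · intro x hx
        rcases List.mem_cons.1 hx with rfl | hx
        · exact h
        · exact h2 x hx
      · rw [List.length_cons, h4, List.countP_cons_of_pos (by simpa using h)]
      · rw [List.length_cons, List.count_cons_of_ne h.ne, List.countP_cons_of_pos (by simpa using h.le),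
          ← h5]
        ring
    · subst h
      have hnil : l₁ = [] := by
        rw [List.eq_nil_iff_forall_not_mem]
        intro x hx
        have h6 := h2 x hx
        have h7 := h0 x (h1 ▸ List.mem_append_left _ hx)
        omega
      subst hnil
      refine ⟨[], l₂, ?_, by simp, h3, ?_, ?_⟩
      · rw [List.count_cons_self, List.replicate_succ, List.nil_append, List.cons_append]
        congr 1
      · rw [List.countP_cons_of_neg (by simp)]
        exact h4
      · rw [List.count_cons_self, List.countP_cons_of_pos (by simp), ← h5]
        ring
    · have hc : l.count a = 0 := by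
        rw [List.count_eq_zero]
        intro hx
        have := h0 a hx
        omega
      refine ⟨[], b :: l, ?_, by simp, ?_, ?_, ?_⟩
      · rw [List.count_cons_of_ne h.ne', hc]
        simp
      · intro x hx
        rcases List.mem_cons.1 hx with rfl | hx
        · exact h
        · exact lt_of_lt_of_le h (h0 x hx)
      · rw [List.countP_cons_of_neg (by simpa using h.le)]
        have : l.countP (· < a) = 0 := by
          rw [List.countP_eq_zero]
          intro x hx
          have := h0 x hx
          simp
          omega
        rw [this]
        rfl
      · rw [List.count_cons_of_ne h.ne', hc, List.countP_cons_of_neg (by simpa using h)]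
        have : l.countP (· ≤ a) = 0 := by
          rw [List.countP_eq_zero]
          intro x hx
          have := h0 x hx
          simp
          omega
        rw [this]
        rfl

/-- the properties of the segment of slope `a` -/
theorem segment (a : ℕ) (l : List ℕ) (hl : l.Pairwise (· ≤ ·)) (ha : a ∈ l) (s t : ℕ)
    (hs : s = l.countP (· < a)) (ht : t = l.countP (· ≤ a)) :
    t = s + l.count a ∧ s < t ∧ t ≤ l.length ∧ (l.take t).sum = (l.take s).sum + a * (t - s) ∧
    (∀ k ≤ l.length, (l.take s).sum + a * k ≤ (l.take k).sum + a * s) ∧
    (0 < s → l.getD (s - 1) 0 < l.getD s 0) ∧ (t < l.length → l.getD (t - 1) 0 < l.getD t 0) := by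
  obtain ⟨l₁, l₂, h1, h2, h3, h4, h5⟩ := split_sorted a l hl
  rw [← hs] at h4
  rw [← ht, h4] at h5
  have hc : 0 < l.count a := List.count_pos_iff.2 ha
  set c := l.count a with hcdef
  have hlen : l.length = s + (c + l₂.length) := by
    conv_lhs => rw [h1]
    rw [List.length_append, List.length_append, List.length_replicate, h4]
  have hts : t - s = c := by omega
  have htake_s : l.take s = l₁ := by
    conv_lhs => rw [h1]
    rw [← h4, List.take_left]
  have htake_t : l.take t = l₁ ++ List.replicate c a := by
    have e : l = (l₁ ++ List.replicate c a) ++ l₂ := by rw [List.append_assoc]; exact h1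
    conv_lhs => rw [e]
    have e2 : t = (l₁ ++ List.replicate c a).length := by
      rw [List.length_append, List.length_replicate, h4, h5]
    rw [e2, List.take_left]
  have hget_s : l.getD s 0 = a := by
    conv_lhs => rw [h1]
    rw [List.getD_append_right _ _ _ _ (by omega), h4, Nat.sub_self,
      List.getD_append _ _ _ _ (by rw [List.length_replicate]; exact hc)]
    rw [List.getD_eq_getElem _ _ (by rw [List.length_replicate]; exact hc), List.getElem_replicate]
  refine ⟨h5.symm, by omega, by omega, ?_, ?_, ?_, ?_⟩
  · rw [htake_s, htake_t, List.sum_append, List.sum_replicate, hts, smul_eq_mul, mul_comm]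
  · intro k hk
    rw [htake_s]
    rcases le_total k s with hks | hks
    · have e1 : l.take k = l₁.take k := by
        rw [← htake_s, List.take_take, min_eq_left hks]
      have e2 : l₁.sum = (l₁.take k).sum + (l₁.drop k).sum := by
        rw [← List.sum_append, List.take_append_drop]
      have h6 := sum_le_mul a (l₁.drop k) (fun x hx => (h2 x (List.mem_of_mem_drop hx)).le)
      rw [List.length_drop, h4] at h6
      rw [e1, e2]
      have e3 : a * (s - k) + a * k = a * s := by rw [← mul_add]; congr 1; omega
      omega
    · have e1 : l.take k = l₁ ++ (List.replicate c a ++ l₂).take (k - s) := by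
        conv_lhs => rw [h1]
        rw [List.take_append, h4, List.take_of_length_le (by omega)]
      have h6 := mul_le_sum a ((List.replicate c a ++ l₂).take (k - s)) (fun x hx => by
        rcases List.mem_append.1 (List.mem_of_mem_take hx) with hx | hx
        · exact (List.eq_of_mem_replicate hx).ge
        · exact (h3 x hx).le)
      rw [List.length_take, List.length_append, List.length_replicate, min_eq_left (by omega)] at h6
      rw [e1, List.sum_append]
      have e3 : a * (k - s) + a * s = a * k := by rw [← mul_add]; congr 1; omega
      omega
  · intro h0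
    rw [hget_s]
    conv_lhs => rw [h1]
    rw [List.getD_append _ _ _ _ (by omega), List.getD_eq_getElem _ _ (by omega)]
    exact h2 _ (List.getElem_mem _)
  · intro h0
    have e1 : l.getD (t - 1) 0 = a := by
      conv_lhs => rw [h1]
      rw [List.getD_append_right _ _ _ _ (by omega),
        List.getD_append _ _ _ _ (by rw [List.length_replicate]; omega),
        List.getD_eq_getElem _ _ (by rw [List.length_replicate]; omega), List.getElem_replicate]
    rw [e1]
    have e2 : l.getD t 0 = l₂.getD 0 0 := by
      conv_lhs => rw [h1]
      rw [List.getD_append_right _ _ _ _ (by omega),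
        List.getD_append_right _ _ _ _ (by rw [List.length_replicate]; omega), List.length_replicate]
      congr 1
      omega
    rw [e2, List.getD_eq_getElem _ _ (by omega)]
    exact h3 _ (List.getElem_mem _)

/-- entries of the reversed dual list -/
theorem getD_dual (w n : ℕ) (l : List ℕ) (hl : l.length = n) (j : ℕ) (hj : j < n) :
    ((l.map fun a => w - a).reverse).getD j 0 = w - l.getD (n - 1 - j) 0 := by
  rw [List.getD_eq_getElem _ _ (by rw [List.length_reverse, List.length_map, hl]; exact hj),
    List.getElem_reverse, List.getElem_map, List.getD_eq_getElem _ _ (by omega)]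
  congr 2
  rw [List.length_map, hl]

end Pool.Agent.Q17.Mot
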