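import Pool.Agent.Q17.Mot.Count
import Pool.Agent.Q17.Mot.Lists
import Pool.Agent.TH30.Ord.Bounds
import Pool.Agent.W528.Ord.AllEll

/-! The embeddings at which the Newton polygon does not meet a vertex of the Hodge polygon. -/

set_option autoImplicit false
set_option linter.all false

namespace Pool.Agent.Q17.Mot

open NumberField IsDedekindDomain Polynomial Filter Topology
open Pool.Agent.W401.Cheb Pool.Agent.W528.Ord
open Pool.Agent.W528.Ord.MultSystem (mv IsDeg1 IsOver mv_mul mv_one mv_inj norm_mem frob_pow_dvd frob_dvd)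

variable {K : Type} [Field K] [NumberField K] {ℓ : ℕ} [Fact ℓ.Prime]

/-- the embeddings `σ` such that `k` is a vertex of the Hodge polygon of the `σ`-part, and the Newton
polygon of the `σ`-part at `Q` does not meet it -/
def failing (A : MotSystem K ℓ) (v : HeightOneSpectrum (𝓞 K)) (Q : Ideal (𝓞 (AlgebraicClosure K)))
    (k : ℕ) : Set (A.E →+* AlgebraicClosure K) :=
  {σ | A.Vertex σ k ∧ LocDvd Q (Ideal.absNorm v.asIdeal) (A.hp σ k + 1) (A.cof v (A.n - k) σ)}

section fixed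

variable {A : MotSystem K ℓ} {χ : GK K →* (PadicAlgCl ℓ)ˣ} {S : Finset ℕ} (hA : A.IsMotive χ S)
  {v : HeightOneSpectrum (𝓞 K)} (hv : IsDeg1 S v)
  {Q : Ideal (𝓞 (AlgebraicClosure K))} (hQ : IsOver Q v)

include hA in
theorem vertex_mv (γ : GK K) (σ : A.E →+* AlgebraicClosure K) (k : ℕ) :
    A.Vertex (mv γ σ) k ↔ A.Vertex σ k := by
  obtain ⟨h1, h2, h3, h4, h5⟩ := hA.isHodge σ
  unfold MotSystem.Vertex
  rw [h5]

include hA in
theorem vertex_conj (σ : A.E →+* AlgebraicClosure K) (k : ℕ) (h : A.Vertex σ k) :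
    A.Vertex (σ.comp (A.conj : A.E →+* A.E)) (A.n - k) := by
  obtain ⟨h1, h2, h3, h4, h5⟩ := hA.isHodge σ
  obtain ⟨hk0, hkn, hlt⟩ := h
  refine ⟨by omega, by omega, ?_⟩
  rw [h4, getD_dual _ _ _ h1 _ (by omega), getD_dual _ _ _ h1 _ (by omega)]
  rw [show A.n - 1 - (A.n - k - 1) = k by omega, show A.n - 1 - (A.n - k) = k - 1 by omega]
  have h6 : (A.h σ).getD k 0 ≤ A.w := by
    rw [List.getD_eq_getElem _ _ (by omega)]
    exact h3 _ (List.getElem_mem _)
  omega

include hA hv hQ in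
/-- the failing embeddings are stable under the Frobenius elements -/
theorem failing_frob {γ : GK K}
    (hγ : ∀ x : 𝓞 (AlgebraicClosure K), γ • x - x ^ Ideal.absNorm v.asIdeal ∈ Q) (k : ℕ)
    {σ : A.E →+* AlgebraicClosure K} (h : σ ∈ failing A v Q k) : mv γ σ ∈ failing A v Q k := by
  haveI := hQ.1.isPrime
  refine ⟨(vertex_mv hA γ σ k).2 h.1, ?_⟩
  rw [MotSystem.hp_inv hA, ← MotSystem.smul_cof]
  have := frob_pow_dvd hγ h.2 1
  rwa [pow_one] at this

include hA hv hQ in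
/-- duality: `σ` fails at `k` if and only if its complex conjugate fails at `n - k` -/
theorem failing_conj (k : ℕ) {σ : A.E →+* AlgebraicClosure K} (h : σ ∈ failing A v Q k) :
    σ.comp (A.conj : A.E →+* A.E) ∈ failing A v Q (A.n - k) := by
  haveI := hQ.1.isPrime
  have hkn : k ≤ A.n := h.1.2.1.le
  refine ⟨vertex_conj hA σ k h.1, ?_⟩
  have hd := MotSystem.dual_E hA hv (A.n - k) (by omega)
  rw [show A.n - (A.n - k) = k by omega] at hd ⊢
  have h5 := congrArg (RingOfIntegers.mapRingHom σ) hd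
  rw [map_mul, map_mul, map_pow, map_natCast] at h5
  have h6 : A.cof v k (σ.comp (A.conj : A.E →+* A.E)) * A.cof v 0 σ =
    (Ideal.absNorm v.asIdeal : 𝓞 (AlgebraicClosure K)) ^ (A.w * (A.n - k)) * A.cof v (A.n - k) σ := h5
  have hc := MotSystem.hp_conj hA σ (A.n - k) (by omega)
  rw [show A.n - (A.n - k) = k by omega] at hc
  have h7 : LocDvd Q (Ideal.absNorm v.asIdeal)
      (A.hp σ A.n + (A.hp (σ.comp (A.conj : A.E →+* A.E)) (A.n - k) + 1))
      (A.cof v 0 σ * A.cof v k (σ.comp (A.conj : A.E →+* A.E))) := by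
    rw [mul_comm, h6]
    obtain ⟨s, hs, y, hy⟩ := h.2
    refine ⟨s, hs, y, ?_⟩
    have e : A.hp σ A.n + (A.hp (σ.comp (A.conj : A.E →+* A.E)) (A.n - k) + 1) =
        A.w * (A.n - k) + (A.hp σ k + 1) := by omega
    rw [e, pow_add, mul_assoc, ← hy]
    ring
  exact LocDvd.of_mul hv.1 ((hA.isMazur v hv Q hQ σ).2) h7

include hA hv hQ in
/-- at a vertex which does not fail the coefficient has the valuation of the Hodge polygon -/
theorem locEq_of_not_failing (k : ℕ) {σ : A.E →+* AlgebraicClosure K} (hk : A.Vertex σ k)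
    (h : σ ∉ failing A v Q k) :
    LocEq Q (Ideal.absNorm v.asIdeal) (A.hp σ k) (A.cof v (A.n - k) σ) := by
  haveI := hQ.1.isPrime
  have hpQ := norm_mem hv.1 hQ.2
  have hunr : ∀ 𝔭 : Ideal (𝓞 A.E), 𝔭.IsPrime → ((Ideal.absNorm v.asIdeal : ℕ) : 𝓞 A.E) ∈ 𝔭 →
      ((Ideal.absNorm v.asIdeal : ℕ) : 𝓞 A.E) ∉ 𝔭 ^ 2 := hA.isUnram _ hv.1 hv.2
  by_contra hcon
  exact h ⟨hk, dichotomy σ Q _ hv.1 hpQ hunr _ _ ((hA.isMazur v hv Q hQ σ).1 k hk.2.1.le) hcon⟩

include hA hv hQ in
/-- the Newton slopes of the `σ`-part contain the Hodge slopes on the segments whose ends do not fail -/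
theorem part_slopes {p : ℕ} [Fact p.Prime] (hpe : Ideal.absNorm v.asIdeal = p)
    {τ : AlgebraicClosure K →+* PadicAlgCl p}
    (hτ : ∀ x : 𝓞 (AlgebraicClosure K), x ∈ Q ↔ ‖τ (x : AlgebraicClosure K)‖ < 1)
    (σ : A.E →+* AlgebraicClosure K) (a : ℕ) (ha : a ∈ A.h σ)
    (hs : σ ∉ failing A v Q ((A.h σ).countP (· < a))) (ht : σ ∉ failing A v Q ((A.h σ).countP (· ≤ a))) :
    (A.h σ).count a ≤
      ((A.poly v (τ.comp σ)).roots.map fun y => ‖y‖).count ((1 / (p : ℝ)) ^ a) := by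
  haveI := hQ.1.isPrime
  obtain ⟨hm, hn⟩ := hA.isMonic v hv
  obtain ⟨h1, h2, h3, h4, h5⟩ := hA.isHodge σ
  have hp1 : (1 : ℝ) < p := by exact_mod_cast (Fact.out : p.Prime).one_lt
  have hq1 : 1 / (p : ℝ) < 1 := by
    rw [div_lt_one (by linarith)]
    exact hp1
  have hco : ∀ j, (A.poly v (τ.comp σ)).coeff j = τ ((A.cof v j σ : 𝓞 (AlgebraicClosure K)) : AlgebraicClosure K) := by
    intro j
    unfold MotSystem.poly
    rw [coeff_map]
    rfl
  set s := (A.h σ).countP (· < a) with hsdef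
  set t := (A.h σ).countP (· ≤ a) with htdef
  obtain ⟨g1, g2, g3, g4, g5, g6, g7⟩ := segment a (A.h σ) h2 ha s t hsdef htdef
  rw [h1] at g3 g5 g7
  have key : ∀ k ≤ A.n, (0 < k → k < A.n → A.Vertex σ k) → σ ∉ failing A v Q k →
      ‖(A.poly v (τ.comp σ)).coeff (A.n - k)‖ = (1 / (p : ℝ)) ^ (A.hp σ k) := by
    intro k hk hver hnf
    rcases Nat.eq_zero_or_pos k with h0 | h0
    · subst h0
      have e : (A.poly v (τ.comp σ)).coeff (A.n - 0) = 1 := by
        unfold MotSystem.poly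
        rw [Nat.sub_zero, coeff_map, ← hn, hm.coeff_natDegree, map_one]
      rw [e, norm_one]
      unfold MotSystem.hp
      simp
    · rcases lt_or_eq_of_le hk with hlt | heq
      · rw [hco]
        have hle := locEq_of_not_failing hA hv hQ k (hver h0 hlt) hnf
        rw [hpe] at hle
        exact norm_of_locEq (p := p) hτ hle
      · rw [hco, heq, Nat.sub_self]
        have hle := (hA.isMazur v hv Q hQ σ).2
        rw [hpe] at hle
        exact norm_of_locEq (p := p) hτ hle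
  have hcount := count_slope (A.poly v (τ.comp σ)) A.n (hm.map _) (by
      unfold MotSystem.poly; rw [hm.natDegree_map, hn]) (IsAlgClosed.splits _) (1 / (p : ℝ)) (by positivity) hq1
      (A.hp σ) a s t g2.le g3 ?_ ?_ ?_ g4 g5
  · rw [show (A.h σ).count a = t - s by omega]
    exact hcount
  · intro k hk
    rw [hco]
    exact norm_of_locDvd (p := p) hτ (by
      have h := (hA.isMazur v hv Q hQ σ).1 k hk
      rwa [hpe] at h)
  · exact key s (by omega) (fun h0 hsn => ⟨h0, hsn, g6 h0⟩) hs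
  · exact key t g3 (fun h0 htn => ⟨h0, htn, g7 htn⟩) ht

end fixed

end Pool.Agent.Q17.Mot
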