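import Pool.Agent.Q17.Mot.Fail

/-! Good places: the coefficients of the Frobenius polynomials are not divisible by large powers of `p`;
the slopes which are lost at a good place. -/

set_option autoImplicit false
set_option linter.all false

namespace Pool.Agent.Q17.Mot

open NumberField IsDedekindDomain Polynomial Filter Topology
open Pool.Agent.W401.Cheb Pool.Agent.W528.Ord
open Pool.Agent.W528.Ord.MultSystem (mv IsDeg1 IsOver mv_mul mv_one mv_inj norm_mem frob_pow_dvd frob_dvd)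

variable {K : Type} [Field K] [NumberField K] {ℓ : ℕ} [Fact ℓ.Prime]

/-- The place `v` is good: it has degree one and residue characteristic `p` outside `S`, and for all `i`
such that the Hodge polygon of some part of `A i` has a vertex, for all `0 < k < n`, all maximal ideals
`Q` over `v` of the ring of algebraic integers, and all exponents `ν σ` such that the `(n - k)`-th
coefficient of the `σ`-part of the Frobenius polynomial is divisible by `p ^ ν σ` at `Q`: the sum of the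
`ν σ` is smaller than `w k d / 2`, the value for the polygons of slope `w / 2`. -/
def GoodPlace {ι : Type} (A : ι → MotSystem K ℓ) (S : Finset ℕ) (v : HeightOneSpectrum (𝓞 K)) : Prop :=
  IsDeg1 S v ∧ ∀ i, (∃ (σ : (A i).E →+* AlgebraicClosure K) (k : ℕ), (A i).Vertex σ k) →
    ∀ k, 0 < k → k < (A i).n → ∀ Q : Ideal (𝓞 (AlgebraicClosure K)), IsOver Q v →
      ∀ ν : ((A i).E →+* AlgebraicClosure K) → ℕ,
        (∀ σ, LocDvd Q (Ideal.absNorm v.asIdeal) (ν σ) ((A i).cof v ((A i).n - k) σ)) →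
        2 * ∑ σ, ν σ < (A i).w * k * Module.finrank ℚ (A i).E

theorem bad_exp_dens {A : MotSystem K ℓ} {χ : GK K →* (PadicAlgCl ℓ)ˣ} {S : Finset ℕ}
    (hA : A.IsMotive χ S) (hex : ∃ (σ : A.E →+* AlgebraicClosure K) (k : ℕ), A.Vertex σ k) (k : ℕ)
    (hk0 : 0 < k) (hkn : k < A.n) :
    Tendsto (dens fun v : HeightOneSpectrum (𝓞 K) => IsDeg1 S v ∧
      ∃ Q : Ideal (𝓞 (AlgebraicClosure K)), IsOver Q v ∧ ∃ ν : (A.E →+* AlgebraicClosure K) → ℕ,
        (∀ σ, LocDvd Q (Ideal.absNorm v.asIdeal) (ν σ) (A.cof v (A.n - k) σ)) ∧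
        A.w * k * Module.finrank ℚ A.E ≤ 2 * ∑ σ, ν σ) atTop (𝓝 0) := by
  have hns := hA.nonScalar hex
  refine engine A.ρ χ hA.isCont.1 hA.isCont.2 hA.connected k A.w hk0 hkn A.P
    (fun v => (Ideal.absNorm v.asIdeal).Prime ∧ Ideal.absNorm v.asIdeal ∉ S)
    (fun v hv => hv.1) (fun v hv => (hA.isMonic v hv).1)
    (fun v hv => (hA.isMonic v hv).2)
    (fun v hv τ α h => hA.isWeil v hv τ α h)
    (fun v hv σ hσ τ => (hA.isCompat v hv σ hσ).2 τ)
    (fun v hv σ hσ => (hA.isCompat v hv σ hσ).1) ?_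
    (fun v => ∃ Q : Ideal (𝓞 (AlgebraicClosure K)), IsOver Q v ∧ ∃ ν : (A.E →+* AlgebraicClosure K) → ℕ,
        (∀ σ, LocDvd Q (Ideal.absNorm v.asIdeal) (ν σ) (A.cof v (A.n - k) σ)) ∧
        A.w * k * Module.finrank ℚ A.E ≤ 2 * ∑ σ, ν σ) ?_
  · obtain ⟨v, hv, τ, hα⟩ := hns
    exact ⟨v, hv, τ, hα⟩
  · rintro v hv ⟨Q, hQ, ν, h, hle⟩
    haveI := hQ.1.isPrime
    have hp := norm_mem hv.1 hQ.2
    have h2 := LocDvd.prod Finset.univ ν (fun σ => A.cof v (A.n - k) σ) (fun σ _ => h σ)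
    have h3 : ∏ σ : A.E →+* AlgebraicClosure K, A.cof v (A.n - k) σ =
        ((Algebra.norm ℤ ((A.P v).coeff (A.n - k)) : ℤ) : 𝓞 (AlgebraicClosure K)) :=
      (norm_eq_prod_int (AlgebraicClosure K) _).symm
    rw [h3] at h2
    exact ⟨_, hle, h2.int hv.1 hp⟩

section family

variable {ι : Type} [Fintype ι] (A : ι → MotSystem K ℓ) (m : ι → ℕ) (χ : GK K →* (PadicAlgCl ℓ)ˣ)
  (S : Finset ℕ) (hA : ∀ i, (A i).IsMotive χ S)

include hA in
/-- almost all places are good -/
theorem dens_good : Tendsto (dens fun v => ¬ GoodPlace A S v) atTop (𝓝 0) := by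
  classical
  let bad : (Σ i : ι, ℕ) → HeightOneSpectrum (𝓞 K) → Prop := fun x v =>
    ((∃ (σ : (A x.1).E →+* AlgebraicClosure K) (k : ℕ), (A x.1).Vertex σ k) ∧ 0 < x.2 ∧ x.2 < (A x.1).n) ∧
    IsDeg1 S v ∧ ∃ Q : Ideal (𝓞 (AlgebraicClosure K)), IsOver Q v ∧
      ∃ ν : ((A x.1).E →+* AlgebraicClosure K) → ℕ,
        (∀ σ, LocDvd Q (Ideal.absNorm v.asIdeal) (ν σ) ((A x.1).cof v ((A x.1).n - x.2) σ)) ∧
        (A x.1).w * x.2 * Module.finrank ℚ (A x.1).E ≤ 2 * ∑ σ, ν σ
  have hbad : ∀ x, Tendsto (dens (bad x)) atTop (𝓝 0) := by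
    rintro ⟨i, k⟩
    by_cases hex : (∃ (σ : (A i).E →+* AlgebraicClosure K) (k : ℕ), (A i).Vertex σ k) ∧ 0 < k ∧ k < (A i).n
    · refine squeeze_zero (fun N => dens_nonneg _ _) (fun N => dens_mono ?_ N)
        (bad_exp_dens (hA i) hex.1 k hex.2.1 hex.2.2)
      rintro v ⟨-, h⟩
      exact h
    · have : bad ⟨i, k⟩ = fun _ => False := by
        funext v
        apply propext
        constructor
        · rintro ⟨h, -⟩
          exact hex h
        · exact False.elim
      rw [this]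
      exact dens_finite _ (by simp)
  have hun := dens_biUnion (Finset.univ.sigma (fun i : ι => Finset.range (A i).n)) bad (fun x _ => hbad x)
  have h1 := (Pool.Agent.TH30.Ord.dens_not_deg1 (K := K) S).add hun
  rw [add_zero] at h1
  refine squeeze_zero (fun N => dens_nonneg _ _) (fun N => ?_) h1
  refine le_trans (dens_mono ?_ N) (dens_or _ _ N)
  intro v hv
  by_cases hd : IsDeg1 S v
  · right
    unfold GoodPlace at hv
    push Not at hv
    obtain ⟨i, hi, k, hk0, hkn, Q, hQ, ν, hν, hle⟩ := hv hd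
    refine ⟨⟨i, k⟩, ?_, ⟨hi, hk0, hkn⟩, hd, Q, hQ, ν, hν, hle⟩
    rw [Finset.mem_sigma]
    exact ⟨Finset.mem_univ _, Finset.mem_range.mpr hkn⟩
  · exact Or.inl hd

end family

section small

variable {A : MotSystem K ℓ} {χ : GK K →* (PadicAlgCl ℓ)ˣ} {S : Finset ℕ} (hA : A.IsMotive χ S)
  {v : HeightOneSpectrum (𝓞 K)} (hv : IsDeg1 S v)
  {Q : Ideal (𝓞 (AlgebraicClosure K))} (hQ : IsOver Q v)

include hA hv hQ in
/-- the number of the failing embeddings is smaller than half the Hodge defect -/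
theorem failing_small (k : ℕ) (hk0 : 0 < k) (hkn : k < A.n)
    (hgood : ∀ ν : (A.E →+* AlgebraicClosure K) → ℕ,
      (∀ σ, LocDvd Q (Ideal.absNorm v.asIdeal) (ν σ) (A.cof v (A.n - k) σ)) →
      2 * ∑ σ, ν σ < A.w * k * Module.finrank ℚ A.E) :
    2 * ((failing A v Q k).ncard : ℤ) < A.defect k := by
  classical
  have h1 := hgood (fun σ => A.hp σ k + (if σ ∈ failing A v Q k then 1 else 0)) (by
    intro σ
    change LocDvd Q _ (A.hp σ k + (if σ ∈ failing A v Q k then 1 else 0)) _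
    by_cases hσ : σ ∈ failing A v Q k
    · rw [if_pos hσ]
      exact hσ.2
    · rw [if_neg hσ, add_zero]
      exact (hA.isMazur v hv Q hQ σ).1 _ hkn.le)
  have h4 : ∑ σ : A.E →+* AlgebraicClosure K, (A.hp σ k + (if σ ∈ failing A v Q k then 1 else 0)) =
      ∑ σ : A.E →+* AlgebraicClosure K, A.hp σ k + (failing A v Q k).ncard := by
    rw [Finset.sum_add_distrib]
    congr 1
    rw [Finset.sum_ite, Finset.sum_const_zero, add_zero, Finset.sum_const, smul_eq_mul, mul_one,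
      ← Set.ncard_coe_finset]
    congr 1
    ext σ
    simp
  rw [h4] at h1
  unfold MotSystem.defect
  rw [Finset.sum_sub_distrib, Finset.sum_const, Finset.card_univ, NumberField.Embeddings.card,
    nsmul_eq_mul, ← Finset.mul_sum]
  zify at h1
  push_cast at h1 ⊢
  linarith

end small

/-- A family of sets of embeddings, one for each `k`, with the properties of the families of failing
embeddings at a good place with the Frobenius element `γ`: the elements of `B k` have the vertex `k`,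
`B k` is stable under `γ`, its complex conjugate is in `B (n - k)`, and it has fewer elements than half
the Hodge defect at `k`. -/
structure SmallFamily (A : MotSystem K ℓ) (γ : GK K) (B : ℕ → Set (A.E →+* AlgebraicClosure K)) :
    Prop where
  vertex : ∀ k, ∀ σ ∈ B k, A.Vertex σ k
  stable : ∀ k, ∀ σ ∈ B k, mv γ σ ∈ B k
  dual : ∀ k, ∀ σ ∈ B k, σ.comp (A.conj : A.E →+* A.E) ∈ B (A.n - k)
  small : ∀ k, 0 < k → k < A.n → 2 * ((B k).ncard : ℤ) < A.defect k

open Classical in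
/-- The number of the Hodge slopes which lie on segments of the Hodge polygons that start or end in a
failing vertex: the slope `a` of the `σ`-part is lost if `σ` is in `B s` or in `B t`, where `s` is the
number of the slopes smaller than `a`, and `t` the number of the slopes at most `a`. -/
noncomputable def lost (A : MotSystem K ℓ) (B : ℕ → Set (A.E →+* AlgebraicClosure K)) : ℕ :=
  ∑ σ : A.E →+* AlgebraicClosure K,
    (A.h σ).countP fun a => decide (σ ∈ B ((A.h σ).countP (· < a)) ∨ σ ∈ B ((A.h σ).countP (· ≤ a)))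

/-- the largest number of slopes lost by a small family -/
noncomputable def maxLost (A : MotSystem K ℓ) (γ : GK K) : ℕ :=
  sSup {b | ∃ B : ℕ → Set (A.E →+* AlgebraicClosure K), SmallFamily A γ B ∧ lost A B = b}

theorem lost_bdd (A : MotSystem K ℓ) (γ : GK K) :
    BddAbove {b | ∃ B : ℕ → Set (A.E →+* AlgebraicClosure K), SmallFamily A γ B ∧ lost A B = b} := by
  classical
  refine ⟨∑ σ : A.E →+* AlgebraicClosure K, (A.h σ).length, ?_⟩
  rintro b ⟨B, -, rfl⟩
  exact Finset.sum_le_sum fun σ _ => List.countP_le_length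

theorem le_maxLost {A : MotSystem K ℓ} {γ : GK K} {B : ℕ → Set (A.E →+* AlgebraicClosure K)}
    (h : SmallFamily A γ B) : lost A B ≤ maxLost A γ :=
  le_csSup (lost_bdd A γ) ⟨B, h, rfl⟩

theorem maxLost_le {A : MotSystem K ℓ} {γ γ' : GK K}
    (h : ∀ B : ℕ → Set (A.E →+* AlgebraicClosure K), SmallFamily A γ B →
      ∃ B' : ℕ → Set (A.E →+* AlgebraicClosure K), SmallFamily A γ' B' ∧ lost A B = lost A B') :
    maxLost A γ ≤ maxLost A γ' := by
  unfold maxLost
  rcases Set.eq_empty_or_nonempty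
    {b | ∃ B : ℕ → Set (A.E →+* AlgebraicClosure K), SmallFamily A γ B ∧ lost A B = b} with h0 | h0
  · rw [h0]
    simp
  · apply csSup_le h0
    rintro b ⟨B, hB, rfl⟩
    obtain ⟨B', hB', e⟩ := h B hB
    rw [e]
    exact le_maxLost hB'

theorem lost_image {A : MotSystem K ℓ} (hh : ∀ (γ : GK K) (σ : A.E →+* AlgebraicClosure K),
    A.h (mv γ σ) = A.h σ) (τ : GK K) (B : ℕ → Set (A.E →+* AlgebraicClosure K)) :
    lost A (fun k => mv τ '' B k) = lost A B := by
  classical
  unfold lost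
  let e : (A.E →+* AlgebraicClosure K) ≃ (A.E →+* AlgebraicClosure K) :=
    ⟨mv τ, mv τ⁻¹, fun σ => by rw [← mv_mul, inv_mul_cancel, mv_one],
      fun σ => by rw [← mv_mul, mul_inv_cancel, mv_one]⟩
  rw [← Equiv.sum_comp e (fun σ => (A.h σ).countP fun a =>
    decide (σ ∈ mv τ '' B ((A.h σ).countP (· < a)) ∨ σ ∈ mv τ '' B ((A.h σ).countP (· ≤ a))))]
  apply Finset.sum_congr rfl
  intro σ _
  change (A.h (mv τ σ)).countP (fun a => decide (mv τ σ ∈ mv τ '' B ((A.h (mv τ σ)).countP (· < a)) ∨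
    mv τ σ ∈ mv τ '' B ((A.h (mv τ σ)).countP (· ≤ a)))) = _
  rw [hh]
  simp only [(mv_inj τ).mem_set_image]

theorem maxLost_conj {A : MotSystem K ℓ} (hh : ∀ (γ : GK K) (σ : A.E →+* AlgebraicClosure K),
    A.h (mv γ σ) = A.h σ) (γ τ : GK K) : maxLost A (τ * γ * τ⁻¹) ≤ maxLost A γ := by
  apply maxLost_le
  rintro B ⟨h1, h2, h3, h4⟩
  refine ⟨fun k => mv τ⁻¹ '' B k, ⟨?_, ?_, ?_, ?_⟩, (lost_image hh τ⁻¹ B).symm⟩
  · rintro k _ ⟨σ, hσ, rfl⟩
    have := h1 k σ hσ
    unfold MotSystem.Vertex at this ⊢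
    rwa [hh]
  · rintro k _ ⟨σ, hσ, rfl⟩
    refine ⟨mv (τ * γ * τ⁻¹) σ, h2 k σ hσ, ?_⟩
    rw [← mv_mul, ← mv_mul]
    congr 1
    group
  · rintro k _ ⟨σ, hσ, rfl⟩
    exact ⟨_, h3 k σ hσ, rfl⟩
  · intro k hk0 hkn
    rw [Set.ncard_image_of_injective _ (mv_inj τ⁻¹)]
    exact h4 k hk0 hkn

theorem maxLost_fix {ι : Type} (A : ι → MotSystem K ℓ) (i : ι) {γ u : GK K}
    (hu : u ∈ MotSystem.fixU A) : maxLost (A i) (γ * u) ≤ maxLost (A i) γ := by
  apply maxLost_le
  rintro B ⟨h1, h2, h3, h4⟩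
  refine ⟨B, ⟨h1, ?_, h3, h4⟩, rfl⟩
  intro k σ hσ
  have := h2 k σ hσ
  rwa [mv_mul, hu i σ] at this

/-- for the identity the sets are arbitrary, so that the maximum is the largest -/
theorem maxLost_le_one (A : MotSystem K ℓ) (γ : GK K) : maxLost A γ ≤ maxLost A 1 := by
  apply maxLost_le
  rintro B ⟨h1, h2, h3, h4⟩
  refine ⟨B, ⟨h1, ?_, h3, h4⟩, rfl⟩
  intro k σ hσ
  rw [mv_one]
  exact hσ

end Pool.Agent.Q17.Mot
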