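import Pool.Agent.Q17.Mot.Slopes

/-! Two cases in which the number of lost slopes is explicit. -/

set_option autoImplicit false
set_option linter.all false

namespace Pool.Agent.Q17.Mot

open NumberField IsDedekindDomain Polynomial Filter Topology
open Pool.Agent.W401.Cheb Pool.Agent.W528.Ord
open Pool.Agent.W528.Ord.MultSystem (mv IsDeg1 IsOver mv_mul mv_one mv_inj norm_mem frob_pow_dvd frob_dvd)

variable {K : Type} [Field K] [NumberField K] {ℓ : ℕ} [Fact ℓ.Prime]

theorem mv_pow_mem {A : MotSystem K ℓ} {γ : GK K} {B : ℕ → Set (A.E →+* AlgebraicClosure K)}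
    (hB : SmallFamily A γ B) {k : ℕ} {σ : A.E →+* AlgebraicClosure K} (h : σ ∈ B k) (j : ℕ) :
    mv (γ ^ j) σ ∈ B k := by
  induction j with
  | zero => rwa [pow_zero, mv_one]
  | succ j ih =>
    rw [pow_succ', mv_mul]
    exact hB.stable k _ ih

/-- if the orbit condition holds, no slope is lost -/
theorem maxLost_of_admissible {A : MotSystem K ℓ} {γ : GK K} (h : A.Admissible γ) :
    maxLost A γ = 0 := by
  classical
  have key : ∀ B, SmallFamily A γ B → lost A B = 0 := by
    intro B hB
    have hemp : ∀ k σ, σ ∉ B k := by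
      intro k σ hσ
      have hv := hB.vertex k σ hσ
      have h1 := h σ k hv
      have h2 := hB.small k hv.1 hv.2.1
      have hsub : A.orb γ σ k ⊆ B k := by
        rintro σ' ⟨j, h3 | ⟨h3, h4⟩⟩
        · rw [h3]
          exact mv_pow_mem hB hσ j
        · rw [h4]
          have h5 := hB.dual k σ hσ
          rw [show A.n - k = k by omega] at h5
          exact mv_pow_mem hB h5 j
      have h6 := Set.ncard_le_ncard hsub (Set.toFinite _)
      have h7 : ((A.orb γ σ k).ncard : ℤ) ≤ ((B k).ncard : ℤ) := by exact_mod_cast h6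
      linarith
    unfold lost
    apply Finset.sum_eq_zero
    intro σ _
    rw [List.countP_eq_zero]
    intro a _
    simp only [decide_eq_true_eq]
    rintro (h | h)
    · exact hemp _ _ h
    · exact hemp _ _ h
  unfold maxLost
  apply le_antisymm _ (Nat.zero_le _)
  rcases Set.eq_empty_or_nonempty
    {b | ∃ B : ℕ → Set (A.E →+* AlgebraicClosure K), SmallFamily A γ B ∧ lost A B = b} with h0 | h0
  · rw [h0]
    simp
  · apply csSup_le h0
    rintro b ⟨B, hB, rfl⟩
    exact (key B hB).le

/-- the `σ`-part has the Hodge numbers of the transcendental part of a K3 surface: the slopes are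
`0, 1, …, 1, 2` -/
def IsK3Part (A : MotSystem K ℓ) (σ : A.E →+* AlgebraicClosure K) : Prop :=
  A.h σ = 0 :: (List.replicate (A.n - 2) 1 ++ [2])

/-- Real multiplication in weight two: `E` is totally real, the weight is `2`, and the Hodge slopes of
the `σ`-part are `0, 1, …, 1, 2`, or all equal to `1` (for example the transcendental part of the second
cohomology of a surface of geometric genus `e` with real multiplication such that the holomorphic
two-forms belong to `e` different embeddings). -/
structure IsRMWeightTwo (A : MotSystem K ℓ) : Prop where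
  two_le : 2 ≤ A.n
  weight : A.w = 2
  real : ∀ x, A.conj x = x
  hodge : ∀ σ : A.E →+* AlgebraicClosure K, IsK3Part A σ ∨ A.h σ = List.replicate A.n 1

theorem hp_one_k3 {A : MotSystem K ℓ} {σ : A.E →+* AlgebraicClosure K} (h : IsK3Part A σ) :
    A.hp σ 1 = 0 := by
  unfold MotSystem.hp
  rw [h]
  simp

theorem hp_one_def {A : MotSystem K ℓ} {σ : A.E →+* AlgebraicClosure K} (h2 : 2 ≤ A.n)
    (h : A.h σ = List.replicate A.n 1) : A.hp σ 1 = 1 := by
  unfold MotSystem.hp
  rw [h, List.take_replicate, List.sum_replicate]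
  simp
  omega

theorem not_k3_def {A : MotSystem K ℓ} {σ : A.E →+* AlgebraicClosure K} (h2 : 2 ≤ A.n)
    (h : A.h σ = List.replicate A.n 1) : ¬ IsK3Part A σ := by
  intro hk
  have h1 := hp_one_k3 hk
  rw [hp_one_def h2 h] at h1
  omega

theorem defect_one_k3 {A : MotSystem K ℓ} (hA : IsRMWeightTwo A) :
    A.defect 1 = 2 * ({σ : A.E →+* AlgebraicClosure K | IsK3Part A σ}.ncard : ℤ) := by
  classical
  rw [Pool.Agent.TH30.Ord.ncard_eq_sum]
  push_cast
  rw [Finset.mul_sum]
  unfold MotSystem.defect
  apply Finset.sum_congr rfl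
  intro σ _
  rw [hA.weight]
  rcases hA.hodge σ with h | h
  · rw [hp_one_k3 h]
    simp [h]
  · rw [hp_one_def hA.two_le h]
    simp [not_k3_def hA.two_le h]

theorem vertex_k3 {A : MotSystem K ℓ} (hA : IsRMWeightTwo A) {σ : A.E →+* AlgebraicClosure K} {k : ℕ}
    (hv : A.Vertex σ k) : IsK3Part A σ ∧ (k = 1 ∨ k = A.n - 1) := by
  obtain ⟨h0, h1, h2⟩ := hv
  rcases hA.hodge σ with h | h
  · refine ⟨h, ?_⟩
    by_contra hcon
    push Not at hcon
    have h3 := hA.two_le
    unfold IsK3Part at h
    have e1 : ∀ j, 1 ≤ j → j < A.n - 1 → (A.h σ).getD j 0 = 1 := by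
      intro j hj0 hj
      rw [h]
      obtain ⟨j', rfl⟩ : ∃ j', j = j' + 1 := ⟨j - 1, by omega⟩
      rw [List.getD_cons_succ, List.getD_append _ _ _ _ (by rw [List.length_replicate]; omega),
        List.getD_eq_getElem _ _ (by rw [List.length_replicate]; omega), List.getElem_replicate]
    rw [e1 (k - 1) (by omega) (by omega), e1 k (by omega) (by omega)] at h2
    omega
  · exfalso
    have h3 : ∀ j, j < A.n → (A.h σ).getD j 0 = 1 := by
      intro j hj
      rw [h, List.getD_eq_getElem _ _ (by rw [List.length_replicate]; exact hj), List.getElem_replicate]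
    rw [h3 (k - 1) (by omega), h3 k (by omega)] at h2
    omega

theorem lost_le_k3 {A : MotSystem K ℓ} (hA : IsRMWeightTwo A) (hlen : ∀ σ : A.E →+* AlgebraicClosure K,
    (A.h σ).length = A.n) {γ : GK K} {B : ℕ → Set (A.E →+* AlgebraicClosure K)}
    (hB : SmallFamily A γ B) : lost A B ≤ A.n * (B 1).ncard := by
  classical
  have hconj : ∀ σ : A.E →+* AlgebraicClosure K, σ.comp (A.conj : A.E →+* A.E) = σ := by
    intro σ
    ext x
    change σ (A.conj x) = σ x
    rw [hA.real]
  have hall : ∀ k σ, σ ∈ B k → σ ∈ B 1 := by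
    intro k σ hσ
    obtain ⟨-, h | h⟩ := vertex_k3 hA (hB.vertex k σ hσ)
    · rwa [h] at hσ
    · have h3 := hB.dual k σ hσ
      rw [hconj, h, show A.n - (A.n - 1) = 1 by have := hA.two_le; omega] at h3
      exact h3
  have h1 : lost A B ≤ ∑ σ : A.E →+* AlgebraicClosure K, (if σ ∈ B 1 then A.n else 0) := by
    unfold lost
    apply Finset.sum_le_sum
    intro σ _
    by_cases hσ : σ ∈ B 1
    · rw [if_pos hσ, ← hlen σ]
      exact List.countP_le_length
    · rw [if_neg hσ]
      apply le_of_eq
      rw [List.countP_eq_zero]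
      intro a _
      simp only [decide_eq_true_eq]
      rintro (h | h)
      · exact hσ (hall _ _ h)
      · exact hσ (hall _ _ h)
  refine h1.trans (le_of_eq ?_)
  rw [Pool.Agent.TH30.Ord.ncard_eq_sum, Finset.mul_sum]
  apply Finset.sum_congr rfl
  intro σ _
  split_ifs <;> simp

/-- Real multiplication in weight two: the slopes of at least `t` parts are not lost, if the orbits of
`γ` on the parts of K3 type have at least `t` elements. -/
theorem maxLost_k3 {A : MotSystem K ℓ} {χ : GK K →* (PadicAlgCl ℓ)ˣ} {S : Finset ℕ}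
    (hm : A.IsMotive χ S) (hA : IsRMWeightTwo A) (hno : ∃ σ : A.E →+* AlgebraicClosure K, IsK3Part A σ)
    (γ : GK K) (t : ℕ) (ht : ∀ σ : A.E →+* AlgebraicClosure K, IsK3Part A σ →
      t ≤ {σ' : A.E →+* AlgebraicClosure K | ∃ j : ℕ, σ' = mv (γ ^ j) σ}.ncard) :
    maxLost A γ + A.n * t ≤ A.n * {σ : A.E →+* AlgebraicClosure K | IsK3Part A σ}.ncard := by
  classical
  set T := {σ : A.E →+* AlgebraicClosure K | IsK3Part A σ} with hT
  have hlen : ∀ σ : A.E →+* AlgebraicClosure K, (A.h σ).length = A.n := fun σ => (hm.isHodge σ).1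
  have hmvT : ∀ (g : GK K) σ, σ ∈ T → mv g σ ∈ T := by
    intro g σ hσ
    change A.h (mv g σ) = _
    rw [(hm.isHodge σ).2.2.2.2 g]
    exact hσ
  have key : ∀ B, SmallFamily A γ B → lost A B + A.n * t ≤ A.n * T.ncard := by
    intro B hB
    have h1 := lost_le_k3 hA hlen hB
    have h2 := hB.small 1 one_pos hA.two_le
    rw [defect_one_k3 hA] at h2
    have h3 : (B 1).ncard < T.ncard := by
      have : ((B 1).ncard : ℤ) < (T.ncard : ℤ) := by linarith
      exact_mod_cast this
    have hsub : B 1 ⊆ T := fun σ hσ => (vertex_k3 hA (hB.vertex 1 σ hσ)).1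
    obtain ⟨σ, hσT, hσB⟩ : ∃ σ ∈ T, σ ∉ B 1 := by
      by_contra hcon
      push Not at hcon
      have : T = B 1 := Set.Subset.antisymm hcon hsub
      rw [this] at h3
      exact lt_irrefl _ h3
    -- the orbit of σ avoids B 1
    have hper : ∀ j : ℕ, mv (γ ^ j) σ ∉ B 1 := by
      intro j hj
      -- a power of `γ` which fixes `σ`
      obtain ⟨a, b, hab, he⟩ := Finite.exists_ne_map_eq_of_infinite
        (fun j : ℕ => (mv (γ ^ j) σ : A.E →+* AlgebraicClosure K))
      obtain ⟨c, hc0, hc⟩ : ∃ c : ℕ, 0 < c ∧ mv (γ ^ c) σ = σ := by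
        rcases lt_or_gt_of_ne hab with h | h
        · refine ⟨b - a, by omega, ?_⟩
          apply mv_inj (γ ^ a)
          rw [← mv_mul, ← pow_add, show a + (b - a) = b by omega]
          exact he.symm
        · refine ⟨a - b, by omega, ?_⟩
          apply mv_inj (γ ^ b)
          rw [← mv_mul, ← pow_add, show b + (a - b) = a by omega]
          exact he
      have hcm : ∀ i : ℕ, mv (γ ^ (c * i)) σ = σ := by
        intro i
        induction i with
        | zero => rw [mul_zero, pow_zero, mv_one]
        | succ i ih => rw [mul_add, mul_one, pow_add, mv_mul, hc, ih]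
      apply hσB
      have h4 := mv_pow_mem hB hj (c * (j + 1) - j)
      rw [← mv_mul, ← pow_add] at h4
      have hle : j ≤ c * (j + 1) := by nlinarith
      rw [show c * (j + 1) - j + j = c * (j + 1) by omega, hcm] at h4
      exact h4
    have hdis : {σ' : A.E →+* AlgebraicClosure K | ∃ j : ℕ, σ' = mv (γ ^ j) σ} ⊆ T \ B 1 := by
      rintro σ' ⟨j, rfl⟩
      exact ⟨hmvT _ σ hσT, hper j⟩
    have h5 := Set.ncard_le_ncard hdis (Set.toFinite _)
    rw [Set.ncard_sdiff hsub (Set.toFinite _)] at h5
    have h6 := (ht σ hσT).trans h5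
    have h7 : (B 1).ncard + t ≤ T.ncard := by omega
    calc lost A B + A.n * t ≤ A.n * (B 1).ncard + A.n * t := Nat.add_le_add_right h1 _
      _ = A.n * ((B 1).ncard + t) := by ring
      _ ≤ A.n * T.ncard := Nat.mul_le_mul_left _ h7
  unfold maxLost
  rcases Set.eq_empty_or_nonempty
    {b | ∃ B : ℕ → Set (A.E →+* AlgebraicClosure K), SmallFamily A γ B ∧ lost A B = b} with h0 | h0
  · rw [h0]
    obtain ⟨σ, hσ⟩ := hno
    have h1 := ht σ hσ
    have h2 : {σ' : A.E →+* AlgebraicClosure K | ∃ j : ℕ, σ' = mv (γ ^ j) σ} ⊆ T := by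
      rintro σ' ⟨j, rfl⟩
      exact hmvT _ σ hσ
    have h3 := h1.trans (Set.ncard_le_ncard h2 (Set.toFinite _))
    have := Nat.mul_le_mul_left A.n h3
    simpa using this
  · have hne := h0
    obtain ⟨b, ⟨B, hB, -⟩⟩ := h0
    have h1 : sSup {b | ∃ B : ℕ → Set (A.E →+* AlgebraicClosure K), SmallFamily A γ B ∧ lost A B = b} ≤
        A.n * T.ncard - A.n * t := by
      apply csSup_le hne
      rintro b ⟨B', hB', rfl⟩
      have := key B' hB'
      omega
    have h2 := key B hB
    omega

end Pool.Agent.Q17.Mot
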