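import Pool.Agent.Q17.Mot.Good

/-! The Newton slopes at a good place. -/

set_option autoImplicit false
set_option linter.all false

namespace Pool.Agent.Q17.Mot

open NumberField IsDedekindDomain Polynomial Filter Topology
open Pool.Agent.W401.Cheb Pool.Agent.W528.Ord
open Pool.Agent.W528.Ord.MultSystem (mv IsDeg1 IsOver mv_mul mv_one mv_inj norm_mem frob_pow_dvd frob_dvd)

/-- the slopes in `H'` are, with multiplicity, among the slopes of the Newton polygon of the polynomial
`F` at the prime number `p` -/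
def HasSlopes (p : ℕ) (F : Polynomial ℤ) (H' : Multiset ℕ) : Prop :=
  ∃ _ : Fact p.Prime, (H'.map fun a => (1 / (p : ℝ)) ^ a) ≤
    ((F.map (Int.castRingHom (PadicAlgCl p))).roots.map fun y => ‖y‖)

/-- the eigenvalues of the `ℓ`-adic matrix `M` are algebraic numbers, and for the embedding `τ` of the
field of algebraic numbers into `ℚ̄_p` the slopes in `H'` are, with multiplicity, among their slopes -/
def HasSlopesTau {ℓ p : ℕ} [Fact ℓ.Prime] [Fact p.Prime] {r : ℕ} (M : Matrix (Fin r) (Fin r) ℚ_[ℓ])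
    (τ : algebraicClosure ℚ (PadicAlgCl ℓ) →+* PadicAlgCl p) (H' : Multiset ℕ) : Prop :=
  ∃ e : Multiset (algebraicClosure ℚ (PadicAlgCl ℓ)),
    e.map (algebraMap _ (PadicAlgCl ℓ)) = (M.charpoly.map (algebraMap ℚ_[ℓ] (PadicAlgCl ℓ))).roots ∧
    (H'.map fun a => (1 / (p : ℝ)) ^ a) ≤ e.map fun y => ‖τ y‖

theorem hasSlopesTau_of {ℓ p : ℕ} [Fact ℓ.Prime] [hp : Fact p.Prime] {r : ℕ}
    (M : Matrix (Fin r) (Fin r) ℚ_[ℓ])
    (τ : algebraicClosure ℚ (PadicAlgCl ℓ) →+* PadicAlgCl p) (H : Multiset ℕ) (F : Polynomial ℤ)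
    (hM : M.charpoly = F.map (Int.castRingHom ℚ_[ℓ])) (hF : HasSlopes p F H) : HasSlopesTau M τ H := by
  obtain ⟨hp', hF⟩ := hF
  haveI : IsAlgClosed (algebraicClosure ℚ (PadicAlgCl ℓ)) :=
    (algebraicClosure.isAlgClosure ℚ (PadicAlgCl ℓ)).isAlgClosed
  refine ⟨(F.map (Int.castRingHom (algebraicClosure ℚ (PadicAlgCl ℓ)))).roots, ?_, ?_⟩
  · rw [← Splits.roots_map (IsAlgClosed.splits _), Polynomial.map_map, hM, Polynomial.map_map]
    congr 2
  · refine hF.trans (le_of_eq ?_)
    have : (F.map (Int.castRingHom (PadicAlgCl p))).roots =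
        ((F.map (Int.castRingHom (algebraicClosure ℚ (PadicAlgCl ℓ)))).roots).map τ := by
      rw [← Splits.roots_map (IsAlgClosed.splits _), Polynomial.map_map]
      congr 2
      exact RingHom.ext_int _ _
    rw [this, Multiset.map_map]
    rfl

variable {K : Type} [Field K] [NumberField K] {ℓ : ℕ} [Fact ℓ.Prime]

section family

variable {ι : Type} [Fintype ι] (A : ι → MotSystem K ℓ) (m : ι → ℕ) (χ : GK K →* (PadicAlgCl ℓ)ˣ)
  (S : Finset ℕ) (hA : ∀ i, (A i).IsMotive χ S)

/-- the number of slopes which can be lost, for a Frobenius element `γ` -/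
noncomputable def totalLost (γ : GK K) : ℕ := ∑ i, m i * maxLost (A i) γ

open Classical in
/-- the slopes which are not lost -/
noncomputable def kept (A : MotSystem K ℓ) (B : ℕ → Set (A.E →+* AlgebraicClosure K))
    (σ : A.E →+* AlgebraicClosure K) : Multiset ℕ :=
  ((A.h σ : Multiset ℕ)).filter fun a =>
    ¬ (σ ∈ B ((A.h σ).countP (· < a)) ∨ σ ∈ B ((A.h σ).countP (· ≤ a)))

theorem card_kept (A : MotSystem K ℓ) (B : ℕ → Set (A.E →+* AlgebraicClosure K)) :
    ∑ σ : A.E →+* AlgebraicClosure K, (A.h σ).length =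
      ∑ σ : A.E →+* AlgebraicClosure K, Multiset.card (kept A B σ) + lost A B := by
  classical
  unfold lost
  rw [← Finset.sum_add_distrib]
  apply Finset.sum_congr rfl
  intro σ _
  unfold kept
  rw [Multiset.filter_coe, Multiset.coe_card, ← List.countP_eq_length_filter]
  have := List.length_eq_countP_add_countP (l := A.h σ)
    (fun a => decide (σ ∈ B ((A.h σ).countP (· < a)) ∨ σ ∈ B ((A.h σ).countP (· ≤ a))))
  rw [this, add_comm]
  congr 1
  apply List.countP_congr
  intro a _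
  simp

include hA in
theorem family_small {v : HeightOneSpectrum (𝓞 K)} (hv : GoodPlace A S v)
    {Q : Ideal (𝓞 (AlgebraicClosure K))} (hQ : IsOver Q v) {γ : GK K}
    (hγ : ∀ x : 𝓞 (AlgebraicClosure K), γ • x - x ^ Ideal.absNorm v.asIdeal ∈ Q) (i : ι) 
    (hex : ∃ (σ : (A i).E →+* AlgebraicClosure K) (k : ℕ), (A i).Vertex σ k) :
    SmallFamily (A i) γ (failing (A i) v Q) where
  vertex k σ hσ := hσ.1
  stable k σ hσ := failing_frob (hA i) hv.1 hQ hγ k hσ
  dual k σ hσ := failing_conj (hA i) hv.1 hQ k hσ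
  small k hk0 hkn := failing_small (hA i) hv.1 hQ k hk0 hkn (hv.2 i hex k hk0 hkn Q hQ)

include hA in
theorem lost_le {v : HeightOneSpectrum (𝓞 K)} (hv : GoodPlace A S v)
    {Q : Ideal (𝓞 (AlgebraicClosure K))} (hQ : IsOver Q v) {γ : GK K}
    (hγ : ∀ x : 𝓞 (AlgebraicClosure K), γ • x - x ^ Ideal.absNorm v.asIdeal ∈ Q) (i : ι) :
    lost (A i) (failing (A i) v Q) ≤ maxLost (A i) γ := by
  classical
  by_cases hex : ∃ (σ : (A i).E →+* AlgebraicClosure K) (k : ℕ), (A i).Vertex σ k
  · exact le_maxLost (family_small A χ S hA hv hQ hγ i hex)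
  · have h0 : lost (A i) (failing (A i) v Q) = 0 := by
      unfold lost
      apply Finset.sum_eq_zero
      intro σ _
      rw [List.countP_eq_zero]
      intro a _
      simp only [decide_eq_true_eq]
      rintro (h | h)
      · exact hex ⟨_, _, h.1⟩
      · exact hex ⟨_, _, h.1⟩
    rw [h0]
    exact Nat.zero_le _

theorem nsmul_le_multiset {α : Type} {s t : Multiset α} (h : s ≤ t) (n : ℕ) : n • s ≤ n • t := by
  induction n with
  | zero => simp
  | succ n ih => rw [succ_nsmul, succ_nsmul]; exact add_le_add ih h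

theorem sum_le_multiset {α κ : Type} (s : Finset κ) (f g : κ → Multiset α) (h : ∀ i ∈ s, f i ≤ g i) :
    ∑ i ∈ s, f i ≤ ∑ i ∈ s, g i := by
  classical
  induction s using Finset.induction_on with
  | empty => simp
  | insert b s hb ih =>
    rw [Finset.sum_insert hb, Finset.sum_insert hb]
    exact add_le_add (h b (Finset.mem_insert_self b s)) (ih fun i hi => h i (Finset.mem_insert_of_mem hi))

include hA in
/-- **the Newton slopes at a good place** -/
theorem hasSlopes {v : HeightOneSpectrum (𝓞 K)} (hv : GoodPlace A S v)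
    {Q : Ideal (𝓞 (AlgebraicClosure K))} (hQ : IsOver Q v) {γ : GK K}
    (hγ : ∀ x : 𝓞 (AlgebraicClosure K), γ • x - x ^ Ideal.absNorm v.asIdeal ∈ Q) (G : Polynomial ℤ)
    (hG : G.map (Int.castRingHom (AlgebraicClosure K)) = MotSystem.prodPoly A m v) :
    ∃ H' : Multiset ℕ, H' ≤ MotSystem.slopes A m ∧
      Multiset.card (MotSystem.slopes A m) ≤ Multiset.card H' + totalLost A m γ ∧
      HasSlopes (Ideal.absNorm v.asIdeal) G H' := by
  classical
  obtain ⟨p, hpe⟩ : ∃ p, Ideal.absNorm v.asIdeal = p := ⟨_, rfl⟩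
  have hpp : p.Prime := hpe ▸ hv.1.1
  haveI : Fact p.Prime := ⟨hpp⟩
  have hpQ := norm_mem hv.1.1 hQ.2
  rw [hpe] at hpQ
  obtain ⟨τ, hτ⟩ := exists_tau (p := p) Q hQ.1 hpQ
  have hG2 : G.map (Int.castRingHom (PadicAlgCl p)) =
      ∏ i, ∏ σ : (A i).E →+* AlgebraicClosure K, ((A i).poly v (τ.comp σ)) ^ m i := by
    have e1 : τ.comp (Int.castRingHom (AlgebraicClosure K)) = Int.castRingHom (PadicAlgCl p) :=
      RingHom.ext_int _ _
    rw [← e1, ← Polynomial.map_map, hG]
    unfold MotSystem.prodPoly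
    rw [Polynomial.map_prod]
    apply Finset.prod_congr rfl
    intro i _
    rw [Polynomial.map_prod]
    apply Finset.prod_congr rfl
    intro σ _
    unfold MotSystem.poly
    rw [Polynomial.map_pow, Polynomial.map_map]
    rfl
  have hne : ∀ i (σ : (A i).E →+* AlgebraicClosure K), (A i).poly v (τ.comp σ) ≠ 0 := by
    intro i σ
    obtain ⟨hm, hn⟩ := (hA i).isMonic v hv.1
    exact (hm.map _).ne_zero
  refine ⟨∑ i, m i • ∑ σ : (A i).E →+* AlgebraicClosure K, kept (A i) (failing (A i) v Q) σ, ?_, ?_, ?_⟩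
  · unfold MotSystem.slopes
    exact sum_le_multiset _ _ _ fun i _ => nsmul_le_multiset (sum_le_multiset _ _ _ fun σ _ =>
      Multiset.filter_le _ _) _
  · unfold MotSystem.slopes totalLost
    rw [Multiset.card_sum, Multiset.card_sum, ← Finset.sum_add_distrib]
    apply Finset.sum_le_sum
    intro i _
    rw [Multiset.card_nsmul, Multiset.card_nsmul, Multiset.card_sum, Multiset.card_sum, ← mul_add]
    apply Nat.mul_le_mul_left
    simp only [Multiset.coe_card]
    rw [card_kept (A i) (failing (A i) v Q)]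
    exact Nat.add_le_add_left (lost_le A χ S hA hv hQ hγ i) _
  · rw [hpe]
    refine ⟨inferInstance, ?_⟩
    rw [hG2, MotSystem.roots_prod_norm _ _
      (fun i _ => Finset.prod_ne_zero_iff.mpr fun σ _ => pow_ne_zero _ (hne i σ)),
      MotSystem.map_sum_multiset]
    apply sum_le_multiset
    intro i _
    rw [MotSystem.roots_prod_norm _ _ (fun σ _ => pow_ne_zero _ (hne i σ)), Multiset.map_nsmul,
      MotSystem.map_sum_multiset, Finset.smul_sum]
    apply sum_le_multiset
    intro σ _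
    rw [roots_pow, Multiset.map_nsmul]
    apply nsmul_le_multiset
    -- one part
    rw [Multiset.le_iff_count]
    intro x
    by_cases hx : x ∈ (kept (A i) (failing (A i) v Q) σ).map fun a => (1 / (p : ℝ)) ^ a
    · obtain ⟨a, ha, rfl⟩ := Multiset.mem_map.1 hx
      have hinj : Function.Injective fun a : ℕ => (1 / (p : ℝ)) ^ a := by
        have hp1 : (1 : ℝ) < p := by exact_mod_cast hpp.one_lt
        have hq0 : 0 < 1 / (p : ℝ) := by positivity
        have hq1 : 1 / (p : ℝ) < 1 := by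
          rw [div_lt_one (by linarith)]
          exact hp1
        exact (pow_right_strictAnti₀ hq0 hq1).injective
      rw [Multiset.count_map_eq_count' _ _ hinj]
      unfold kept at ha ⊢
      rw [Multiset.mem_filter] at ha
      obtain ⟨ha1, ha2⟩ := ha
      push Not at ha2
      refine le_trans (Multiset.count_le_of_le _ (Multiset.filter_le _ _)) ?_
      rw [Multiset.coe_count]
      exact part_slopes (hA i) hv.1 hQ hpe hτ σ a (by simpa using ha1) ha2.1 ha2.2
    · rw [Multiset.count_eq_zero_of_notMem hx]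
      exact Nat.zero_le _

include hA in
/-- the places with Frobenius elements which behave like `γ₀` have positive density -/
theorem like_dens (γ₀ : GK K) : ∃ δ : ℝ, 0 < δ ∧
    Tendsto (dens fun v : HeightOneSpectrum (𝓞 K) => ∃ γ : GK K, IsFrob v γ ∧
      ∀ i, maxLost (A i) γ ≤ maxLost (A i) γ₀) atTop (𝓝 δ) := by
  haveI := MotSystem.fixU_normal A
  haveI : Finite (GK K ⧸ MotSystem.fixU A) :=
    Subgroup.quotient_finite_of_isOpen _ (MotSystem.fixU_open A)
  have h := chebK K (MotSystem.fixU A) (MotSystem.fixU_open A)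
    {γ | ∀ i, maxLost (A i) γ ≤ maxLost (A i) γ₀}
    (fun σ hσ τ i => (maxLost_conj (fun γ σ => ((hA i).isHodge σ).2.2.2.2 γ) σ τ).trans (hσ i))
    (fun σ hσ u hu i => (maxLost_fix A i hu).trans (hσ i))
  refine ⟨(((QuotientGroup.mk : GK K → GK K ⧸ MotSystem.fixU A) ''
      {γ | ∀ i, maxLost (A i) γ ≤ maxLost (A i) γ₀}).ncard : ℝ) /
    (Nat.card (GK K ⧸ MotSystem.fixU A) : ℝ), ?_, ?_⟩
  · apply div_pos
    · have : 0 < ((QuotientGroup.mk : GK K → GK K ⧸ MotSystem.fixU A) ''
          {γ | ∀ i, maxLost (A i) γ ≤ maxLost (A i) γ₀}).ncard := by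
        rw [Set.ncard_pos (Set.toFinite _)]
        exact ⟨_, γ₀, fun i => le_refl _, rfl⟩
      exact_mod_cast this
    · exact_mod_cast Nat.card_pos
  · have e : (fun v : HeightOneSpectrum (𝓞 K) => ∃ σ ∈ {γ : GK K | ∀ i, maxLost (A i) γ ≤
        maxLost (A i) γ₀}, IsFrob v σ) =
        fun v => ∃ γ : GK K, IsFrob v γ ∧ ∀ i, maxLost (A i) γ ≤ maxLost (A i) γ₀ := by
      funext v
      apply propext
      constructor
      · rintro ⟨σ, h1, h2⟩
        exact ⟨σ, h2, h1⟩
      · rintro ⟨σ, h1, h2⟩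
        exact ⟨σ, h2, h1⟩
    rw [e] at h
    exact h

include hA in
theorem lower_K (γ₀ : GK K) : ∃ δ : ℝ, 0 < δ ∧ ∀ᶠ N : ℕ in atTop, δ ≤ dens (fun v =>
    GoodPlace A S v ∧ ∃ γ : GK K, IsFrob v γ ∧ ∀ i, maxLost (A i) γ ≤ maxLost (A i) γ₀) N := by
  obtain ⟨δ, hδ, hlim⟩ := like_dens A χ S hA γ₀
  have h1 := dens_good A χ S hA
  refine ⟨δ / 2, by positivity, ?_⟩
  have e0 := hlim.eventually (lt_mem_nhds (show 3 * δ / 4 < δ by linarith))
  have e1 := h1.eventually (gt_mem_nhds (show (0:ℝ) < δ / 4 by positivity))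
  filter_upwards [e0, e1] with N h0 h1
  have hle : dens (fun v : HeightOneSpectrum (𝓞 K) => ∃ γ : GK K, IsFrob v γ ∧
      ∀ i, maxLost (A i) γ ≤ maxLost (A i) γ₀) N ≤
      dens (fun v => GoodPlace A S v ∧ ∃ γ : GK K, IsFrob v γ ∧
        ∀ i, maxLost (A i) γ ≤ maxLost (A i) γ₀) N +
      dens (fun v => ¬ GoodPlace A S v) N := by
    refine le_trans (dens_mono ?_ N) (dens_or _ _ N)
    intro v hv
    by_cases hg : GoodPlace A S v
    · exact Or.inl ⟨hg, hv⟩
    · exact Or.inr hg
  linarith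

end family

end Pool.Agent.Q17.Mot
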